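import Pool.Agent.H38.FG.Stmt
import Pool.Agent.H38.FG.StmtB
import Pool.Agent.H38.FG.BrgD
import Pool.Agent.H38.FG.BrgF
import Pool.Agent.H38.FG.DescD
import Pool.Agent.H39.FGC.SL
import Pool.Agent.H38.FG.ClsA
import Pool.Agent.H38.FG.ClsB
import Pool.Agent.H38.FG.Final

/-!
# Finite generation of the cohomology ring of the forms of `GL_N` and `SL_N`

`G = Spec H` is a group scheme over the noetherian ring `k` which after a faithfully flat base
change `k → k'`, `k'` noetherian, becomes isomorphic to `GL_N` or to `SL_N`.  For every finitely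
generated commutative `k`-algebra `A` with an action `ρ : A → A ⊗ H` of `G` the ring `H^*(G,A)` is a
finitely generated `k`-algebra.
-/

open TensorProduct
open Pool.Agent.H38.FG

namespace Pool.Agent.H38.LinearForms

/-- for `N = 0` both groups are trivial -/
theorem isGL_zero {k : Type} [CommRing k] {H : Type} [CommRing H] [Algebra k H]
    (c : Matrix (Fin 0) (Fin 0) H) (h : St.IsSL k c) : St.IsGL k c := by
  have hdet : (Matrix.det (Matrix.of fun i j : Fin 0 =>
      (MvPolynomial.X (i, j) : MvPolynomial (Fin 0 × Fin 0) k))) = 1 := Matrix.det_fin_zero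
  have hker := h.ker
  rw [hdet, sub_self, Ideal.span_singleton_zero] at hker
  have hinj : Function.Injective
      (MvPolynomial.aeval (R := k) fun p : Fin 0 × Fin 0 => c p.1 p.2) :=
    (RingHom.injective_iff_ker_eq_bot _).2 hker
  have hu : IsUnit (Matrix.det (Matrix.of fun i j : Fin 0 =>
      (MvPolynomial.X (i, j) : MvPolynomial (Fin 0 × Fin 0) k))) := by
    rw [hdet]; exact isUnit_one
  let e₁ : MvPolynomial (Fin 0 × Fin 0) k ≃ₐ[k] St.GLring k 0 :=
    (IsLocalization.atUnit (MvPolynomial (Fin 0 × Fin 0) k) (St.GLring k 0) _ hu).restrictScalars k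
  let e₂ : MvPolynomial (Fin 0 × Fin 0) k ≃ₐ[k] H :=
    AlgEquiv.ofBijective _ ⟨hinj, h.surjective⟩
  exact ⟨e₁.symm.trans e₂, fun i => i.elim0⟩

/-- a Hopf algebra identified with `GL_N` or `SL_N` is `IsLinAffine` -/
theorem isLinAffine_aux (k : Type) [CommRing k] (H : Type) [CommRing H] [HopfAlgebra k H] (N : ℕ)
    (c : Matrix (Fin N) (Fin N) H) (hc : St.IsComatrix k c)
    (hG : St.IsGL k c ∨ St.IsSL k c) : ∃ M : ℕ, IsLinAffine k H M := by
  rcases hG with h | h
  · obtain ⟨e, he⟩ := exists_equivGL c hc h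
    exact ⟨N, isLinAffine_congr e he (isLinAffine_gl k N)⟩
  · obtain ⟨e, he⟩ := exists_equivSL c hc h
    rcases N with _ | m
    · obtain ⟨e', he'⟩ := exists_equivGL c hc (isGL_zero c h)
      exact ⟨0, isLinAffine_congr e' he' (isLinAffine_gl k 0)⟩
    · exact ⟨m + 1, isLinAffine_congr e he (isLinAffine_sl k m)⟩

theorem result (k : Type) [CommRing k] [IsNoetherianRing k] (H : Type) [CommRing H]
    [HopfAlgebra k H] (k' : Type) [CommRing k'] [IsNoetherianRing k'] [Algebra k k']
    [Module.FaithfullyFlat k k'] (N : ℕ)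
    (c : Matrix (Fin N) (Fin N) (k' ⊗[k] H)) (hc : St.IsComatrix k' c)
    (hG : St.IsGL k' c ∨ St.IsSL k' c)
    (A : Type) [CommRing A] [Algebra k A] [Algebra.FiniteType k A]
    (ρ : A →ₐ[k] A ⊗[k] H) (hρ : St.IsAction ρ) : St.CohomologyFG ρ := by
  let r : AlgCoact k H A :=
    ⟨⟨ρ.toLinearMap, hρ.counit, hρ.coassoc⟩, map_one ρ, map_mul ρ⟩
  obtain ⟨M, hM⟩ := isLinAffine_aux k' (k' ⊗[k] H) N c hc hG
  have h := cohomologyFG_of r (Pool.Agent.H38.FG.result k H k' M hM A r)
  have hr : r.ρa = ρ := AlgHom.ext fun a => rfl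
  rwa [hr] at h

end Pool.Agent.H38.LinearForms
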